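import Pool.Agent.H207.TP.Stm2

/-! Project TP (helper207): the linearized equations can be solved (`S_SOLP`). The small lemmas on
Taylor coefficients are those of `Pool/Agent/H167/TF207/SOLVE.lean`. -/

set_option autoImplicit false

open Polynomial

namespace Pool.Agent.H685.TP207.SOLP

open Pool.Agent.H207.TP

lemma tay_sub (e : ℂ) (k : ℕ) : taylor e ((X - C e) ^ k) = X ^ k := by
  rw [taylor_pow, map_sub, taylor_X, taylor_C, add_sub_cancel_right]

/-- Taylor coefficients below the order of vanishing -/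
lemma hd_of_dvd {e : ℂ} {k : ℕ} {p : ℂ[X]} (h : (X - C e) ^ k ∣ p) {j : ℕ} (hj : j < k) :
    (hasseDeriv j p).eval e = 0 := by
  obtain ⟨g, rfl⟩ := h
  rw [← taylor_coeff, taylor_mul, tay_sub, coeff_X_pow_mul', if_neg (by omega)]

lemma hd_mul {e : ℂ} (k : ℕ) (g : ℂ[X]) :
    (hasseDeriv k ((X - C e) ^ k * g)).eval e = g.eval e := by
  rw [← taylor_coeff, taylor_mul, tay_sub, coeff_X_pow_mul', if_pos le_rfl, Nat.sub_self,
    taylor_coeff, hasseDeriv_zero, LinearMap.id_apply]

lemma hd_sum {e : ℂ} (k : ℕ) (a : ℕ → ℂ) {j : ℕ} (hj : j < k) :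
    (hasseDeriv j (∑ i ∈ Finset.range k, C (a i) * (X - C e) ^ i)).eval e = a j := by
  rw [← taylor_coeff, map_sum]
  simp only [taylor_mul, tay_sub, taylor_C, finsetSum_coeff, coeff_C_mul, coeff_X_pow,
    mul_ite, mul_one, mul_zero]
  rw [Finset.sum_ite_eq, if_pos (Finset.mem_range.2 hj)]

lemma exists_prim (p : ℂ[X]) : ∃ q : ℂ[X], derivative q = p := by
  induction p using Polynomial.induction_on' with
  | add p q hp hq =>
    obtain ⟨p', rfl⟩ := hp
    obtain ⟨q', rfl⟩ := hq
    exact ⟨p' + q', map_add _ _ _⟩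
  | monomial n a =>
    refine ⟨monomial (n + 1) (a / ((n : ℂ) + 1)), ?_⟩
    rw [derivative_monomial, Nat.add_sub_cancel]
    have h : (n : ℂ) + 1 ≠ 0 := Nat.cast_add_one_ne_zero n
    congr 1
    push_cast
    field_simp

lemma exists_prim_val (p : ℂ[X]) (e b : ℂ) : ∃ q : ℂ[X], derivative q = p ∧ q.eval e = b := by
  obtain ⟨q, hq⟩ := exists_prim p
  refine ⟨q + C (b - q.eval e), ?_, ?_⟩
  · rw [derivative_add, derivative_C, add_zero, hq]
  · rw [eval_add, eval_C, add_sub_cancel]

theorem t_SOLP : Pool.Agent.H207.TP.S_SOLP := by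
  classical
  intro d T hd hTd r e he hroot _ a b
  obtain ⟨N, hN⟩ : ∃ N, N = derivative T := ⟨_, rfl⟩
  have hNd : N.natDegree = d - 1 := by
    rw [hN, natDegree_derivative, hTd]
  have hN0 : N ≠ 0 := by
    intro h0
    rw [h0, natDegree_zero] at hNd
    omega
  rw [← hN] at hroot
  have hm : ∀ i, (X - C (e i)) ^ (N.rootMultiplicity (e i)) ∣ N := fun i =>
    pow_rootMultiplicity_dvd N (e i)
  have hm1 : ∀ i, 0 < N.rootMultiplicity (e i) := fun i =>
    (rootMultiplicity_pos hN0).2 (hroot i)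
  -- the polynomials `Z i`
  have hZ : ∀ i, ∃ Z : ℂ[X], derivative Z =
      ∑ j ∈ Finset.range (N.rootMultiplicity (e i) - 1), C (a i j) * (X - C (e i)) ^ j ∧
        Z.eval (e i) = b i := fun i => exists_prim_val _ _ _
  choose Z hZd hZb using hZ
  -- Chinese remainder theorem
  obtain ⟨S₀, hS₀⟩ := Ideal.exists_forall_sub_mem_ideal
    (I := fun i : Fin r => Ideal.span {(X - C (e i)) ^ (N.rootMultiplicity (e i))})
    (by
      intro i j hij
      change IsCoprime (Ideal.span _) (Ideal.span _)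
      rw [Ideal.isCoprime_span_singleton_iff]
      exact (pairwise_coprime_X_sub_C he hij).pow) Z
  obtain ⟨H, hH⟩ : ∃ H, H = S₀ % N := ⟨_, rfl⟩
  have hHd : H.natDegree ≤ d := by
    have h := natDegree_mod_lt S₀ (q := N) (by omega)
    rw [← hH] at h
    omega
  have hHZ : ∀ i, (X - C (e i)) ^ (N.rootMultiplicity (e i)) ∣ H - Z i := by
    intro i
    have h1 := Ideal.mem_span_singleton.1 (hS₀ i)
    have h2 : H - Z i = (S₀ - Z i) - N * (S₀ / N) := by
      rw [hH, EuclideanDomain.mod_eq_sub_mul_div]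
      ring
    rw [h2]
    exact dvd_sub h1 ((hm i).mul_right _)
  have hWA : ∀ i, (X - C (e i)) ^ (N.rootMultiplicity (e i) - 1) ∣ derivative H -
      ∑ j ∈ Finset.range (N.rootMultiplicity (e i) - 1), C (a i j) * (X - C (e i)) ^ j := by
    intro i
    have h1 := pow_sub_one_dvd_derivative_of_pow_dvd (hHZ i)
    rwa [derivative_sub, hZd] at h1
  have hNm : ∀ i, (hasseDeriv (N.rootMultiplicity (e i)) N).eval (e i) ≠ 0 := by
    intro i
    obtain ⟨g, hg1, hg2⟩ := exists_eq_pow_rootMultiplicity_mul_and_not_dvd N hN0 (e i)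
    intro h0
    apply hg2
    rw [dvd_iff_isRoot]
    have h1 := hd_mul (e := e i) (N.rootMultiplicity (e i)) g
    rw [← hg1, h0] at h1
    exact h1.symm
  refine ⟨H, fun i => (a i (N.rootMultiplicity (e i) - 1) -
    (hasseDeriv (N.rootMultiplicity (e i) - 1) (derivative H)).eval (e i)) /
      ((((N.rootMultiplicity (e i) - 1 : ℕ) : ℂ) + 1) *
        (hasseDeriv (N.rootMultiplicity (e i) - 1 + 1) N).eval (e i)), hHd, ?_, ?_⟩
  · intro i j hj
    rw [← hN] at hj
    rw [eqP, ← hN]
    by_cases hj1 : j < N.rootMultiplicity (e i) - 1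
    · rw [hd_of_dvd (hm i) (j := j + 1) (by omega), mul_zero, zero_mul, add_zero]
      have h1 := hd_of_dvd (hWA i) hj1
      rw [map_sub, eval_sub, hd_sum _ _ hj1, sub_eq_zero] at h1
      exact h1
    · have hj2 : j = N.rootMultiplicity (e i) - 1 := by omega
      subst hj2
      have h1 : N.rootMultiplicity (e i) - 1 + 1 = N.rootMultiplicity (e i) := by
        have := hm1 i
        omega
      have h2 : (((N.rootMultiplicity (e i) - 1 : ℕ) : ℂ) + 1) ≠ 0 :=
        Nat.cast_add_one_ne_zero _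
      have h3 : (hasseDeriv (N.rootMultiplicity (e i) - 1 + 1) N).eval (e i) ≠ 0 := by
        rw [h1]
        exact hNm i
      rw [mul_div_cancel₀ _ (mul_ne_zero h2 h3)]
      ring
  · intro i
    have h1 : (X - C (e i)) ∣ H - Z i :=
      (dvd_pow_self _ (hm1 i).ne').trans (hHZ i)
    rw [dvd_iff_isRoot, IsRoot.def, eval_sub, hZb, sub_eq_zero] at h1
    exact h1

end Pool.Agent.H685.TP207.SOLP
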